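import Pool.Agent.Lib.MP_1aae89_al.HC.Defs

/-!
# Groups `X = U N_X(A) U`: definitions (MP_1aae89_al, Q1)
-/

set_option autoImplicit false

namespace Pool.Agent.Lib.MP_1aae89_al

/-- there is a chain `A = R 0 ≤ R 1 ≤ ... ≤ R m = P` of subgroups, each of index `p` in the next one, such
that `R (i + 1)` contains an element outside `R i` whose `q`-th power is `1` -/
def PChain (p q : ℕ) {X : Type} [Group X] (A P : Subgroup X) : Prop :=
  ∃ (m : ℕ) (R : ℕ → Subgroup X), R 0 = A ∧ R m = P ∧ ∀ i < m, R i ≤ R (i + 1) ∧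
    (R i).relIndex (R (i + 1)) = p ∧ ∃ z ∈ R (i + 1), z ∉ R i ∧ z ^ q = 1

end Pool.Agent.Lib.MP_1aae89_al
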