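import Pool.Agent.Lib.MP_1aae89_al.W7.Defs

/-!
# Groups `X = U N_X(A) U`: the conditions of the theorem (MP_1aae89_al, Q1)
-/

set_option autoImplicit false

namespace Pool.Agent.Lib.MP_1aae89_al

open Matrix (GeneralLinearGroup)

/-- case 2: `M = U N_M(A) U`, there is a chain from `A` to `P`, and the `q`-th power of some element of `A` does not fix
some vector which is fixed by `U` -/
def SplitSub (p q : ℕ) {M V : Type} [Group M] [AddCommGroup V] [Module ℂ V]
    (ρ : Representation ℂ M V) (P : Subgroup M) : Prop :=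
  ∃ A U : Subgroup M, SplitDec p A U ∧ PChain p q A P ∧
    ∃ v : V, (∀ u ∈ U, ρ u v = v) ∧ ∃ x ∈ A, ρ (x ^ q) v ≠ v

/-- `H` contains all matrices of determinant `1` -/
def HasSL {n : ℕ} {F : Type} [Field F] (H : Subgroup (GL (Fin n) F)) : Prop :=
  ∀ g : GL (Fin n) F, (g : Matrix (Fin n) (Fin n) F).det = 1 → g ∈ H

/-- `M` is a quotient of `H` by a central subgroup -/
def CentralQuot (H M : Type) [Group H] [Group M] : Prop :=
  ∃ f : H →* M, Function.Surjective f ∧ ∀ z : H, f z = 1 → ∀ g : H, z * g = g * z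

/-- case 3: `M` is a quotient of a group `H` with `SL_n(F) ≤ H ≤ GL_n(F)` by a central subgroup of `H`, where `F` is a
finite field, `p ∣ |F| - 1` and `n < p` -/
def SLQuot (p : ℕ) (M : Type) [Group M] : Prop :=
  ∃ (n : ℕ) (F : Type) (_ : Field F) (_ : Fintype F) (H : Subgroup (GL (Fin n) F)),
    n < p ∧ p ∣ Fintype.card F - 1 ∧ HasSL H ∧ CentralQuot H M

end Pool.Agent.Lib.MP_1aae89_al
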