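import Pool.Agent.Lib.MP_1aae89_al.W7.Defs
import Pool.Agent.Lib.MP_1aae89_al.HC.Spec2
import Pool.Agent.Lib.MP_1aae89_al.W6.SpecC

/-!
# Groups `X = U N_X(A) U`, `A` a `p`-subgroup: specifications (MP_1aae89_al, Q1)

THEOREM (final statement, in Results). `M ≤ G` of index prime to `p`, `ρ` irreducible of `p'`-degree and level `b ≥ 2`,
`P` a Sylow `p`-subgroup of `M`, `A ≤ P`, `SplitDec p A U`. If `A = P`, or if `PChain p (p^(b-1)) A P` and the
`p^(b-1)`-th powers of the elements of `A` do not all act trivially on the fixed vectors of `U`, then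
`lev (ψ^G) = b`. Examples: split BN-pairs with `p ∣ q - 1`.
PROOF of the second case: `q = p^(b-1)`. If a linear character `η` of `A` with `η^q = 1` occurs in `V^U`, then
the `q`-th powers of the elements of `A` act trivially on `V^U` (CNJ). So `p ∣ dl q (χ|A) 1` by PFX (ADL), and up
the chain by XDL (UPC); CJS and Q1D.
-/

set_option autoImplicit false

namespace Pool.Agent.Lib.MP_1aae89_al.W7

open Pool.Agent.Lib.MP_1aae89_al Pool.Agent.Lib.MP_1aae89_al.BF Pool.Agent.Lib.MP_1aae89_al.W3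
  Pool.Agent.Lib.MP_1aae89_al.HC Pool.Agent.Lib.MP_1aae89_al.W6 Finset
open Pool.Agent.Lib.MP1aae89 (Pex)
open Matrix (GeneralLinearGroup)

/-- CNJ. PROOF. If `v₀ = N E_η w ≠ 0` then `r(u) v₀ = v₀` for `u ∈ U` and `r(x) v₀ = η(x) v₀` for `x ∈ A`; the vectors
`r(g) v₀` span `V` (Schur: `∑_g r(g) S r(g⁻¹)` is scalar). `|U| v = N v` is a combination of the `N r(g) v₀ = N r(m) v₀`
(`g = u m v`), on which `r(x^q)` acts trivially: `r(x^q) N r(m) v₀ = N r(m) r(m⁻¹ x^q m) v₀`. -/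
def SpecCNJ : Prop := ∀ (p : ℕ) {X : Type} [Group X] [Fintype X] (A U : Subgroup X),
  SplitDec p A U → ∀ {n : ℕ} (r : X →* Matrix (Fin n) (Fin n) ℂ), Sch r → ∀ (q : ℕ) (v : Fin n → ℂ),
  (∀ u ∈ U, (r u).mulVec v = v) → ∀ x ∈ A, (r (x ^ q)).mulVec v ≠ v → ∀ η : Lin A, η ^ q = 1 →
  NU r U * EE r A η = 0

/-- ADL. PROOF. PFX (for `A`), CNJ. -/
def SpecADL : Prop := ∀ (p : ℕ), p.Prime → ∀ {X : Type} [Group X] [Fintype X] (A U : Subgroup X)
  (e : ℕ), Nat.card A = p ^ e → SplitDec p A U → ∀ {n : ℕ} (r : X →* Matrix (Fin n) (Fin n) ℂ), Sch r →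
  ∀ q : ℕ, p ∣ q → ∀ v : Fin n → ℂ, (∀ u ∈ U, (r u).mulVec v = v) →
  ∀ x ∈ A, (r (x ^ q)).mulVec v ≠ v → p ∣ dl q (fun x : A => (r x).trace) 1

/-- UPC. PROOF. Induction along the chain, XDL for `R i ≤ R (i + 1)` (`(R i).subgroupOf (R (i + 1))`, a normal subgroup
because it has index `p` in a `p`-group; `QDL` for the isomorphism with `R i`). -/
def SpecUPC : Prop := ∀ (p : ℕ), p.Prime → ∀ {X : Type} [Group X] [Finite X] (A P : Subgroup X)
  (e : ℕ), Nat.card P = p ^ e → ∀ q : ℕ, p ∣ q → PChain p q A P → ∀ χ : X → ℂ, IsCharacter χ →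
  p ∣ dl q (fun x : A => χ x) 1 → p ∣ dl q (fun x : P => χ x) 1

/-- CJS. Another Sylow subgroup. PROOF. They are conjugate; `QDL` for the isomorphism `x ↦ g x g⁻¹`. -/
def SpecCJS : Prop := ∀ (p : ℕ), p.Prime → ∀ {X : Type} [Group X] [Finite X] (P P' : Subgroup X),
  Nat.card P = p ^ (Nat.card X).factorization p → Nat.card P' = p ^ (Nat.card X).factorization p →
  ∀ (q : ℕ) (χ : X → ℂ), IsCharacter χ → dl q (fun x : P' => χ x) 1 = dl q (fun x : P => χ x) 1

/-- QUO. Central quotients. PROOF. The Sylow property: `Sylow.mapSurjective` or orders. `nrm`, `cop`, `dec` are clear.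
`fix`: if `f u` commutes with all `f x`, `x ∈ P`, then `x u x⁻¹ = c u` with `c ∈ ker f` central, `c ∈ U` (`nrm`), so
`x^k u x^(-k) = c^k u`, `c^|P| = 1`, and `c = 1` as `|U|` is prime to `p`. So `u` commutes with all `x ∈ P`, `u = 1`. -/
def SpecQUO : Prop := ∀ (p : ℕ), p.Prime → ∀ {H M : Type} [Group H] [Finite H] [Group M] [Finite M]
  (f : H →* M), Function.Surjective f → (∀ z : H, f z = 1 → ∀ h : H, z * h = h * z) →
  ∀ P U : Subgroup H, Nat.card P = p ^ (Nat.card H).factorization p → SplitDec p P U →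
  Nat.card (P.map f) = p ^ (Nat.card M).factorization p ∧ SplitDec p (P.map f) (U.map f)

/-- GLH. The groups between `SL_n(q)` and `GL_n(q)`.
PROOF. `P`, `U` as in GLN (`HC/GLN.lean`: `PP (p^a) n F`), intersected with `H` (`subgroupOf`). `H` is normal in `GL_n(q)`
(it contains the commutators), so `P ∩ H` is a Sylow subgroup of `H` (`|H : P ∩ H| = |H P : P|`). `U ≤ H` as `det u = 1`.
`dec`: `g = u m v` with `m` monomial and then `m ∈ H`. `fix`: `n ≤ 1`: `U` is trivial; `n ≥ 2`: `p ≥ 3`; for `i < j` take the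
diagonal matrix with the entries `z` at `i`, `z⁻¹` at `j` and `1` elsewhere, `z` of order `p`: `(z² - 1) u_ij = 0`. -/
def SpecGLH : Prop := ∀ (p n : ℕ), p.Prime → n < p → ∀ (F : Type) [Field F] [Fintype F],
  p ∣ Fintype.card F - 1 → ∀ H : Subgroup (GL (Fin n) F),
  (∀ g : GL (Fin n) F, (g : Matrix (Fin n) (Fin n) F).det = 1 → g ∈ H) → ∃ P U : Subgroup H,
    Nat.card P = p ^ (Nat.card H).factorization p ∧ SplitDec p P U

end Pool.Agent.Lib.MP_1aae89_al.W7
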