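import Pool.Agent.Lib.MP_1aae89_al.W6.Spec
import Pool.Agent.Lib.MP_1aae89_al.W6.SpecC
import Pool.Agent.Lib.MP_1aae89_al.BF.PStep
import Pool.Agent.Lib.MP_1aae89_al.W7.Spec
import Pool.Agent.Lib.MP_1aae89_al.W5.SPN

section
/-!
# RED: the reduction to almost simple groups
-/
set_option autoImplicit false

namespace Pool.Agent.Lib.MP_1aae89_al.W6

open Pool.Agent.Lib.MP_1aae89_al Pool.Agent.Lib.MP_1aae89_al.BF Pool.Agent.Lib.MP_1aae89_al.W3
  Pool.Agent.Lib.MP_1aae89_al.W4 Pool.Agent.Lib.MP_1aae89_al.W5 Finset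

namespace RED

/-- a minimal normal subgroup -/
theorem exists_min {Z : Type} [Group Z] [Finite Z] (h : Nontrivial Z) :
    ∃ N : Subgroup Z, N.Normal ∧ N ≠ ⊥ ∧
      ∀ R : Subgroup Z, R.Normal → R ≤ N → R = ⊥ ∨ R = N := by
  classical
  have hex : ∃ k : ℕ, ∃ N : Subgroup Z, N.Normal ∧ N ≠ ⊥ ∧ Nat.card N = k :=
    ⟨_, ⊤, inferInstance, top_ne_bot, rfl⟩
  obtain ⟨N, hN, hne, hc⟩ := Nat.find_spec hex
  refine ⟨N, hN, hne, fun R hR hle => ?_⟩
  by_cases hR0 : R = ⊥
  · exact Or.inl hR0
  · right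
    have h1 : Nat.find hex ≤ Nat.card R := Nat.find_min' hex ⟨R, hR, hR0, rfl⟩
    rw [← hc] at h1
    exact Subgroup.eq_of_le_of_card_ge hle h1

/-- elements of `N ⊔ P` have a power in `N` -/
theorem pow_mem_of_sup {p : ℕ} {Z : Type} [Group Z] [Finite Z] (N P : Subgroup Z) [N.Normal]
    {e : ℕ} (hP : Nat.card P = p ^ e) : ∀ z ∈ N ⊔ P, ∃ j : ℕ, z ^ p ^ j ∈ N := by
  intro z hz
  obtain ⟨a, ha, x, hx, rfl⟩ := Subgroup.mem_sup_of_normal_left.1 hz
  refine ⟨e, ?_⟩
  rw [← QuotientGroup.eq_one_iff, QuotientGroup.mk_pow, QuotientGroup.mk_mul,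
    (QuotientGroup.eq_one_iff a).2 ha, one_mul, ← QuotientGroup.mk_pow, ← hP]
  have h1 : (⟨x, hx⟩ : P) ^ Nat.card P = 1 := pow_card_eq_one'
  have h2 : x ^ Nat.card P = 1 := congrArg Subtype.val h1
  rw [h2, QuotientGroup.mk_one]

/-- the centralizer of a normal subgroup -/
def cenN {Z : Type} [Group Z] (N : Subgroup Z) : Subgroup Z := Subgroup.centralizer (N : Set Z)

theorem mem_cenN {Z : Type} [Group Z] (N : Subgroup Z) (z : Z) :
    z ∈ cenN N ↔ ∀ x ∈ N, z * x = x * z := by
  unfold cenN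
  rw [Subgroup.mem_centralizer_iff]
  exact ⟨fun h x hx => (h x hx).symm, fun h x hx => (h x hx).symm⟩

theorem cenN_normal {Z : Type} [Group Z] (N : Subgroup Z) [hN : N.Normal] : (cenN N).Normal := by
  refine ⟨fun c hc g => ?_⟩
  rw [mem_cenN] at hc ⊢
  intro x hx
  have h1 : g⁻¹ * x * g ∈ N := by
    have := hN.conj_mem x hx g⁻¹
    rwa [inv_inv] at this
  have h2 := hc _ h1
  calc g * c * g⁻¹ * x = g * (c * (g⁻¹ * x * g)) * g⁻¹ := by group
    _ = g * ((g⁻¹ * x * g) * c) * g⁻¹ := by rw [h2]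
    _ = x * (g * c * g⁻¹) := by group

/-- a normal subgroup whose elements have `p`-power order is contained in each Sylow subgroup -/
theorem le_syl {p : ℕ} (hp : p.Prime) {Z : Type} [Group Z] [Finite Z] (C P : Subgroup Z) [C.Normal]
    (hP : Nat.card P = p ^ (Nat.card Z).factorization p) (hC : ∀ z ∈ C, ∃ j : ℕ, z ^ p ^ j = 1) :
    C ≤ P := by
  have : Fact p.Prime := ⟨hp⟩
  have hCp : IsPGroup p C := fun z => by
    obtain ⟨j, hj⟩ := hC z z.2
    exact ⟨j, Subtype.ext hj⟩
  let S : Sylow p Z := Sylow.ofCard P hP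
  have h1 : C ≤ (S : Subgroup Z) := IsPGroup.le_sylow_of_normal hCp S
  exact h1

end RED

open RED in
theorem specRED (hGPG : SpecGPG) (hGEX : SpecGEX) (hMAB : SpecMAB) (hSPL : SpecSPL)
    (hPRD : SpecPRD) (hWZS : SpecWZS) : SpecRED := by
  intro p b hp hb Cl hCl hAS Z _ _ hZ
  have key : ∀ k : ℕ, ∀ (Z : Type) [Group Z] [Finite Z], Nat.card Z = k → Cl Z → Good p b Z := by
    intro k
    induction k using Nat.strong_induction_on with
    | _ k ih =>
      intro Z _ _ hk hZ
      have : Fact p.Prime := ⟨hp⟩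
      -- it is enough to consider surjective homomorphisms
      suffices hS : SurG p b Z by
        intro Y _ _ f hc hker hran b' hb'
        by_cases hT : f.range = ⊤
        · exact hS Y f (MonoidHom.range_eq_top.1 hT) hc hker b' hb'
        · have hcard : Nat.card f.range < k := by
            rw [← hk]
            refine lt_of_le_of_ne (Subgroup.card_le_card_group f.range) fun h => hT ?_
            exact Subgroup.eq_top_of_card_eq f.range h
          have hG : Good p b f.range := ih _ hcard f.range rfl (hCl.sub f.range hran hZ)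
          have hk' : f.rangeRestrict.ker = f.ker := f.ker_rangeRestrict
          refine hG Y f.rangeRestrict (fun y hy z => ?_) ?_ ?_ b' hb'
          · exact hc y (congrArg Subtype.val hy) z
          · rw [hk']
            exact hker
          · rw [MonoidHom.range_eq_top.2 f.rangeRestrict_surjective, Subgroup.index_top]
            exact fun h => hp.one_lt.ne' (Nat.dvd_one.1 h)
      have good_sur : Good p b Z → SurG p b Z := by
        intro h Y _ _ f hs hc hk b' hb'
        refine h Y f hc hk ?_ b' hb'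
        rw [MonoidHom.range_eq_top.2 hs, Subgroup.index_top]
        exact fun h1 => hp.one_lt.ne' (Nat.dvd_one.1 h1)
      rcases subsingleton_or_nontrivial Z with hs | hnt
      · exact good_sur (hGPG p b hp hb 0 (by rw [pow_zero]; exact Nat.card_unique))
      obtain ⟨S⟩ : Nonempty (Sylow p Z) := inferInstance
      have hP : Nat.card (S : Subgroup Z) = p ^ (Nat.card Z).factorization p :=
        S.card_eq_multiplicity
      -- a normal subgroup `N ≠ 1` with `N P ≠ Z`
      have hgex : ∀ (N : Subgroup Z) [N.Normal], N ≠ ⊥ → N ⊔ (S : Subgroup Z) ≠ ⊤ →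
          SurG p b Z := by
        intro N _ hne htop
        have hcN : 1 < Nat.card N := by
          rw [Subgroup.one_lt_card_iff_ne_bot]
          exact hne
        have hcQ : Nat.card (Z ⧸ N) < k := by
          have h1 := N.card_eq_card_quotient_mul_card_subgroup
          rw [hk] at h1
          have h2 : 0 < Nat.card (Z ⧸ N) := Nat.card_pos
          rw [h1]
          exact lt_mul_of_one_lt_right h2 hcN
        have hcP : Nat.card ↥(N ⊔ (S : Subgroup Z)) < k := by
          rw [← hk]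
          refine lt_of_le_of_ne (Subgroup.card_le_card_group _) fun h => htop ?_
          exact Subgroup.eq_top_of_card_eq _ h
        have hidx : ¬ p ∣ (N ⊔ (S : Subgroup Z)).index := by
          intro h
          have h1 : (N ⊔ (S : Subgroup Z)).index ∣ (S : Subgroup Z).index :=
            Subgroup.index_dvd_of_le le_sup_right
          exact S.not_dvd_index (h.trans h1)
        exact good_sur (hGEX p b hp hb N (S : Subgroup Z) hP
          (ih _ hcQ _ rfl (hCl.img (QuotientGroup.mk' N) (QuotientGroup.mk'_surjective N) hZ))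
          (ih _ hcP _ rfl (hCl.sub _ hidx hZ)))
      obtain ⟨N, hN, hne, hmin⟩ := exists_min hnt
      by_cases htop : N ⊔ (S : Subgroup Z) = ⊤
      swap
      · exact hgex N hne htop
      have hq : ∀ z : Z, ∃ j : ℕ, z ^ p ^ j ∈ N :=
        fun z => pow_mem_of_sup N (S : Subgroup Z) hP z (by rw [htop]; exact Subgroup.mem_top z)
      by_cases hab : ∀ x ∈ N, ∀ y ∈ N, x * y = y * x
      · exact good_sur (hMAB p b hp hb N hmin hq hab)
      by_cases hsimp : ∃ R : Subgroup N, R.Normal ∧ R ≠ ⊥ ∧ R ≠ ⊤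
      · obtain ⟨X₁, N₀, hW, hcm⟩ := hSPL p hp N hmin hq hab hsimp
        have hX : X₁.Normal := hW.norm
        obtain ⟨-, hHC, -⟩ := hPRD p hp X₁ N₀ hW
        have hHn : ((HC X₁ N₀).subgroupOf X₁).Normal := by
          refine ⟨fun x hx g => ?_⟩
          exact hHC g g.2 x hx
        have h1 : Cl X₁ := hCl.nrm X₁ hX hW.idx hZ
        have h2 : Cl (X₁ ⧸ (HC X₁ N₀).subgroupOf X₁) :=
          hCl.img (QuotientGroup.mk' _) (QuotientGroup.mk'_surjective _) h1
        have hlt : Nat.card (X₁ ⧸ (HC X₁ N₀).subgroupOf X₁) < k := by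
          have h3 : Nat.card (X₁ ⧸ (HC X₁ N₀).subgroupOf X₁) ≤ Nat.card X₁ :=
            Nat.le_of_dvd Nat.card_pos (Subgroup.card_quotient_dvd_card _)
          have h4 := X₁.card_mul_index
          rw [hW.idx, hk] at h4
          have h5 : 0 < Nat.card X₁ := Nat.card_pos
          have h6 := hp.two_le
          nlinarith
        exact hWZS p b hp hb X₁ N₀ hW hcm (ih _ hlt _ rfl h2)
      · have hsimple : ∀ R : Subgroup N, R.Normal → R = ⊥ ∨ R = ⊤ := by
          intro R hR
          by_contra hcon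
          rw [not_or] at hcon
          exact hsimp ⟨R, hR, hcon.1, hcon.2⟩
        by_cases hC : cenN N = ⊥
        · refine hAS Z hZ N ⟨hN, hab, hsimple, fun z hz => ?_, hq⟩ (fun T hT hi => ?_)
            (fun T hT hi => ?_)
          · have h1 : z ∈ cenN N := (mem_cenN N z).2 hz
            rw [hC] at h1
            exact Subgroup.mem_bot.1 h1
          · refine ih _ ?_ T rfl (hCl.sub T hi hZ)
            rw [← hk]
            refine lt_of_le_of_ne (Subgroup.card_le_card_group T) fun h => hT ?_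
            exact Subgroup.eq_top_of_card_eq T h
          · refine ih _ ?_ T rfl (hCl.nrm T hT hi hZ)
            rw [← hk]
            refine lt_of_le_of_ne (Subgroup.card_le_card_group T) fun h => ?_
            have h1 : T = ⊤ := Subgroup.eq_top_of_card_eq T h
            rw [h1, Subgroup.index_top] at hi
            exact hp.one_lt.ne hi
        · have hCn : (cenN N).Normal := cenN_normal N
          refine hgex (cenN N) hC fun h => ?_
          -- `C ∩ N = 1`
          have hdis : ∀ z, z ∈ cenN N → z ∈ N → z = 1 := by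
            have h2 : (cenN N ⊓ N : Subgroup Z) = ⊥ := by
              rcases hmin (cenN N ⊓ N) inferInstance inf_le_right with h2 | h2
              · exact h2
              · exfalso
                refine hab fun x hx y hy => ?_
                rw [← h2] at hx
                exact (mem_cenN N x).1 hx.1 y hy
            intro z h3 h4
            have h5 : z ∈ (cenN N ⊓ N : Subgroup Z) := ⟨h3, h4⟩
            rw [h2] at h5
            exact Subgroup.mem_bot.1 h5
          have hle : cenN N ≤ (S : Subgroup Z) := by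
            refine le_syl hp (cenN N) (S : Subgroup Z) hP fun z hz => ?_
            obtain ⟨j, hj⟩ := hq z
            exact ⟨j, hdis _ (pow_mem hz _) hj⟩
          have hS : (S : Subgroup Z) = ⊤ := by rw [← h, sup_eq_right.2 hle]
          -- `Z` is a `p`-group, so the centre of `N` is not trivial
          have hNp : IsPGroup p N := by
            have h1 : IsPGroup p (⊤ : Subgroup Z) := by rw [← hS]; exact S.isPGroup'
            exact h1.to_le le_top
          have hNnt : Nontrivial N := (Subgroup.nontrivial_iff_ne_bot N).2 hne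
          have hZn : Nontrivial (Subgroup.center N) := hNp.center_nontrivial
          rcases hsimple (Subgroup.center N) inferInstance with h1 | h1
          · rw [Subgroup.nontrivial_iff_ne_bot] at hZn
            exact hZn h1
          · refine hab fun x hx y hy => ?_
            have h2 : (⟨x, hx⟩ : N) ∈ Subgroup.center N := by rw [h1]; exact Subgroup.mem_top _
            have h3 := Subgroup.mem_center_iff.1 h2 ⟨y, hy⟩
            exact (congrArg Subtype.val h3).symm
  exact key _ Z rfl hZ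

end Pool.Agent.Lib.MP_1aae89_al.W6
end

section
/-!
# Module XDL: counting linear constituents in a `p`-group with a subgroup of index `p`
-/
set_option autoImplicit false

namespace Pool.Agent.Lib.MP_1aae89_al.W6

open Pool.Agent.Lib.MP_1aae89_al Pool.Agent.Lib.MP_1aae89_al.BF Pool.Agent.Lib.MP_1aae89_al.W3
  Pool.Agent.Lib.MP_1aae89_al.W4 Pool.Agent.Lib.MP_1aae89_al.W5 Finset
open Pool.Agent.Lib.MP1aae89 (Pex)

namespace XDL_

/-- a subgroup which contains `R`, of prime index, and an element outside `R`, is everything -/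
theorem eq_top {p : ℕ} (hp : p.Prime) {P : Type} [Group P] (R S : Subgroup P)
    (hR : R.index = p) {z : P} (hz : z ∉ R) (hRS : R ≤ S) (hzS : z ∈ S) : S = ⊤ := by
  have h5 := Subgroup.relIndex_mul_index hRS
  rw [hR] at h5
  have h6 : S.index ∣ p := Dvd.intro_left _ h5
  rcases (Nat.dvd_prime hp).1 h6 with h7 | h7
  · exact Subgroup.index_eq_one.1 h7
  · exfalso
    rw [h7] at h5
    have h8 : R.relIndex S = 1 := Nat.eq_of_mul_eq_mul_right hp.pos (h5.trans (one_mul p).symm)
    exact hz (Subgroup.relIndex_eq_one.1 h8 hzS)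

theorem resL_pow {Q : Type} [Group Q] (R : Subgroup Q) (μ : Lin Q) (n : ℕ) :
    resL R (μ ^ n) = resL R μ ^ n := by
  apply Lin.ext
  intro r
  rw [resL_apply, Lin.pow_apply, Lin.pow_apply, resL_apply]

end XDL_

open XDL_

open Classical in
theorem specXDL : SpecXDL := by
  intro p hp P _ _ e hP R hRn hR q hpq z hz hzq χ hχ k hdvd
  have : Fact p.Prime := ⟨hp⟩
  have hdlP : dl q χ k = ∑ l ∈ univ.filter (fun l : Lin P => l ^ q = k), mlt χ l := by
    unfold dl
    refine sum_congr ?_ fun l _ => ml_eq χ l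
    ext l
    simp only [mem_filter]
  by_cases hkz : k z = 1
  swap
  · have h0 : (univ.filter (fun l : Lin P => l ^ q = k)) = ∅ := by
      rw [filter_eq_empty_iff]
      intro l _ hl
      apply hkz
      rw [← hl, Lin.pow_apply]
      exact hzq l
    rw [hdlP, h0, sum_empty]
    exact dvd_zero p
  -- restriction
  have hmem : ∀ l : Lin P, l ^ q = k ↔ (resL R l) ^ q = resL R k := by
    intro l
    constructor
    · intro h
      rw [← resL_pow, h]
    · intro h
      let S : Subgroup P := ((l ^ q * k⁻¹ : Lin P) : P →* ℂˣ).ker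
      have hS : ∀ x, x ∈ S ↔ (l ^ q * k⁻¹ : Lin P) x = 1 := fun x => Iff.rfl
      have hRS : R ≤ S := by
        intro x hx
        rw [hS, Lin.mul_apply, Lin.inv_apply]
        have h1 : (resL R l ^ q) ⟨x, hx⟩ = resL R k ⟨x, hx⟩ := by rw [h]
        rw [← resL_pow, resL_apply, resL_apply] at h1
        rw [show (l ^ q) x = k x from h1, mul_inv_cancel]
      have hzS : z ∈ S := by
        rw [hS, Lin.mul_apply, Lin.inv_apply, hkz, inv_one, mul_one, Lin.pow_apply]
        exact hzq l
      have htop := eq_top hp R S hR hz hRS hzS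
      apply Lin.ext
      intro x
      have hx : x ∈ S := by rw [htop]; exact Subgroup.mem_top x
      rw [hS, Lin.mul_apply, Lin.inv_apply] at hx
      exact mul_inv_eq_one.1 hx
  have hdlR : dl q (fun x : R => χ x) (resL R k) =
      ∑ μ ∈ univ.filter (fun μ : Lin R => μ ^ q = resL R k), mlt (fun x : R => χ x) μ := by
    unfold dl
    refine sum_congr ?_ fun l _ => ml_eq _ l
    ext l
    simp only [mem_filter]
  rw [hdlR] at hdvd
  -- the orbits of `z`
  have hinvR : ∀ μ : Lin R, μ ^ q = resL R k →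
      (Pool.Agent.Lib.MP_1aae89_al.cj R z μ) ^ q = resL R k := by
    intro μ hμ
    apply Lin.ext
    intro r
    rw [Lin.pow_apply, Pool.Agent.Lib.MP_1aae89_al.cj_apply, ← Lin.pow_apply, hμ, resL_apply, resL_apply]
    show k (z⁻¹ * r * z) = k r
    rw [map_mul, map_mul, map_inv, mul_comm, mul_inv_cancel_left]
  have h2 := sum_modEq (p := p) (univ.filter (fun μ : Lin R => μ ^ q = resL R k))
    (Pool.Agent.Lib.MP_1aae89_al.cj R z)
    (fun μ hμ => mem_filter.2 ⟨mem_univ _, hinvR μ (mem_filter.1 hμ).2⟩) (fun ν _ => by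
      rw [cj_iterate, cj_of_mem R (pow_mem_of_index R hR z)])
    (mlt fun r : R => χ r) (fun ν _ => mlt_cj R hχ z ν)
  have hmaps : ∀ l ∈ univ.filter (fun l : Lin P => l ^ q = k), resL R l ∈
      (univ.filter (fun μ : Lin R => μ ^ q = resL R k)).filter
        (fun ν : Lin R => Pool.Agent.Lib.MP_1aae89_al.cj R z ν = ν) := by
    intro l hl
    simp only [mem_filter]
    refine ⟨⟨mem_univ _, (hmem l).1 (mem_filter.1 hl).2⟩, Lin.ext fun r => ?_⟩
    rw [Pool.Agent.Lib.MP_1aae89_al.cj_apply, resL_apply, resL_apply]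
    show l (z⁻¹ * r * z) = l r
    rw [map_mul, map_mul, map_inv, mul_comm, mul_inv_cancel_left]
  have h3 : ∑ ν ∈ (univ.filter (fun μ : Lin R => μ ^ q = resL R k)).filter
        (fun ν : Lin R => Pool.Agent.Lib.MP_1aae89_al.cj R z ν = ν), mlt (fun r : R => χ r) ν =
      ∑ l ∈ univ.filter (fun l : Lin P => l ^ q = k), mlt χ l := by
    rw [← sum_fiberwise_of_maps_to hmaps]
    refine sum_congr rfl fun ν hν => ?_
    rw [mem_filter, mem_filter] at hν
    let S : Subgroup P :=
      { carrier := {y | Pool.Agent.Lib.MP_1aae89_al.cj R y ν = ν}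
        mul_mem' := fun {y w} hy hw => by
          show Pool.Agent.Lib.MP_1aae89_al.cj R (y * w) ν = ν
          rw [cj_mul, show Pool.Agent.Lib.MP_1aae89_al.cj R w ν = ν from hw]
          exact hy
        one_mem' := by
          show Pool.Agent.Lib.MP_1aae89_al.cj R 1 ν = ν
          exact cj_of_mem R R.one_mem ν
        inv_mem' := fun {y} hy => by
          show Pool.Agent.Lib.MP_1aae89_al.cj R y⁻¹ ν = ν
          have h4 : Pool.Agent.Lib.MP_1aae89_al.cj R (y⁻¹ * y) ν =
              Pool.Agent.Lib.MP_1aae89_al.cj R y⁻¹ ν := by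
            rw [cj_mul, show Pool.Agent.Lib.MP_1aae89_al.cj R y ν = ν from hy]
          rw [← h4, inv_mul_cancel]
          exact cj_of_mem R R.one_mem ν }
    have hS : S = ⊤ := eq_top hp R S hR hz (fun y hy => cj_of_mem R hy ν) hν.2
    have hinv : ∀ (y : P) (r : R), ν ⟨y⁻¹ * r * y, by
        simpa using hRn.conj_mem r r.2 y⁻¹⟩ = ν r := by
      intro y r
      have h9 : y ∈ S := by rw [hS]; exact Subgroup.mem_top y
      have h10 : Pool.Agent.Lib.MP_1aae89_al.cj R y ν = ν := h9
      rw [← Pool.Agent.Lib.MP_1aae89_al.cj_apply, h10]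
    rw [← mlt_restrict R hR hχ ν hinv]
    refine sum_congr ?_ fun _ _ => rfl
    ext l
    rw [mem_filter, mem_filter, mem_filter]
    constructor
    · rintro ⟨_, h⟩
      have h' : resL R l = ν := Lin.ext fun r => h r
      exact ⟨⟨mem_univ _, (hmem l).2 (by rw [h']; exact hν.1.2)⟩, h'⟩
    · rintro ⟨_, h⟩
      refine ⟨mem_univ _, fun r => ?_⟩
      rw [← h]
      rfl
  rw [hdlP, ← h3]
  exact (Nat.modEq_zero_iff_dvd.1 (h2.symm.trans (Nat.modEq_zero_iff_dvd.2 hdvd)))

end Pool.Agent.Lib.MP_1aae89_al.W6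
end

section
/-!
# ADL: the number of linear constituents of the restriction to `A`
-/
set_option autoImplicit false

namespace Pool.Agent.Lib.MP_1aae89_al.W7

open Pool.Agent.Lib.MP_1aae89_al Pool.Agent.Lib.MP_1aae89_al.BF Pool.Agent.Lib.MP_1aae89_al.W3
  Pool.Agent.Lib.MP_1aae89_al.HC Pool.Agent.Lib.MP_1aae89_al.W6 Finset

theorem specADL (hPFX : SpecPFX) (hCNJ : SpecCNJ) : SpecADL := by
  classical
  intro p hp X _ _ A U e hA hS n r hr q hpq v hv x hx hxv
  obtain ⟨w, hw, h1⟩ := hPFX p hp A U e hA hS r q hpq 1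
  have h2 : ∀ η ∈ univ.filter (fun η : Lin A => η ^ q = 1), (NU r U * EE r A η).trace = 0 := by
    intro η hη
    rw [hCNJ p A U hS r hr q v hv x hx hxv η (mem_filter.1 hη).2, Matrix.trace_zero]
  rw [sum_congr (by congr) h2, sum_const_zero] at h1
  have hp0 : (p : ℂ) ≠ 0 := by exact_mod_cast hp.ne_zero
  set d := dl q (fun x : A => (r x).trace) 1 with hd
  have h3 : -w = (((d : ℚ) / p : ℚ) : ℂ) := by
    push_cast
    rw [eq_div_iff hp0]
    linear_combination h1
  have h4 : IsIntegral ℤ (((d : ℚ) / p : ℚ) : ℂ) := h3 ▸ hw.neg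
  have h5 : IsIntegral ℤ ((d : ℚ) / p : ℚ) := by
    have h6 : IsIntegral ℤ (algebraMap ℚ ℂ ((d : ℚ) / p)) := h4
    exact (isIntegral_algebraMap_iff (algebraMap ℚ ℂ).injective).1 h6
  obtain ⟨m, hm⟩ := IsIntegrallyClosed.isIntegral_iff.1 h5
  have hp0' : (p : ℚ) ≠ 0 := by exact_mod_cast hp.ne_zero
  have h7 : (d : ℤ) = p * m := by
    have h8 : (m : ℚ) = (d : ℚ) / p := by
      rw [← hm]
      rfl
    rw [eq_div_iff hp0'] at h8
    have h9 : ((d : ℤ) : ℚ) = ((p * m : ℤ) : ℚ) := by
      push_cast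
      rw [← h8]
      ring
    exact_mod_cast h9
  exact Int.natCast_dvd_natCast.1 ⟨m, h7⟩

end Pool.Agent.Lib.MP_1aae89_al.W7
end

section
/-!
# Module CJS: another Sylow subgroup
-/
set_option autoImplicit false

namespace Pool.Agent.Lib.MP_1aae89_al.W7

open Pool.Agent.Lib.MP_1aae89_al Pool.Agent.Lib.MP_1aae89_al.BF Pool.Agent.Lib.MP_1aae89_al.W3
  Pool.Agent.Lib.MP_1aae89_al.HC Pool.Agent.Lib.MP_1aae89_al.W6 Finset
open Pool.Agent.Lib.MP1aae89 (Pex)

open scoped Pointwise in
theorem specCJS (hQDL : SpecQDL) : SpecCJS := by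
  intro p hp X _ _ P P' hP hP' q χ hχ
  have : Fact p.Prime := ⟨hp⟩
  obtain ⟨g, hg⟩ := MulAction.exists_smul_eq X (Sylow.ofCard P hP) (Sylow.ofCard P' hP')
  have h1 : MulAut.conj g • P = P' := congrArg Sylow.toSubgroup hg
  have h2 : ∀ x, x ∈ P' ↔ g⁻¹ * x * g ∈ P := by
    intro x
    rw [← h1, Subgroup.mem_pointwise_smul_iff_inv_smul_mem, ← map_inv, MulAut.smul_def, MulAut.conj_apply, inv_inv]
  have h3 : ∀ x : P, g * x * g⁻¹ ∈ P' := by
    intro x
    rw [h2]
    have h4 : g⁻¹ * (g * x * g⁻¹) * g = x := by group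
    rw [h4]
    exact x.2
  let π : P →* P' := MonoidHom.mk' (fun x => ⟨g * x * g⁻¹, h3 x⟩) fun x y => Subtype.ext (by
    show g * ((x : X) * y) * g⁻¹ = g * x * g⁻¹ * (g * y * g⁻¹)
    group)
  have hπ : Function.Surjective π := by
    rintro ⟨y, hy⟩
    refine ⟨⟨g⁻¹ * y * g, (h2 y).1 hy⟩, Subtype.ext ?_⟩
    show g * (g⁻¹ * y * g) * g⁻¹ = y
    group
  have h4 := hQDL π hπ q (fun x : P' => χ x) (hχ.comp P'.subtype) 1
  have h5 : (fun x : P => χ ((π x : P') : X)) = fun x : P => χ x := by
    funext x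
    have h6 := hχ.conj g⁻¹ x
    rw [inv_inv] at h6
    exact h6
  have h6 : pb π (1 : Lin P') = 1 := by
    apply Lin.ext
    intro x
    rw [pb_apply, Lin.one_apply, Lin.one_apply]
  rw [← h4, h6]
  rw [h5]

end Pool.Agent.Lib.MP_1aae89_al.W7
end

section
/-!
# CNJ: the constituents of the space of fixed vectors of `U`
-/
set_option autoImplicit false

namespace Pool.Agent.Lib.MP_1aae89_al.W7

open Pool.Agent.Lib.MP_1aae89_al Pool.Agent.Lib.MP_1aae89_al.BF Pool.Agent.Lib.MP_1aae89_al.W3
  Pool.Agent.Lib.MP_1aae89_al.HC Pool.Agent.Lib.MP_1aae89_al.W6 Finset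

open AGI_ in
theorem specCNJ : SpecCNJ := by
  classical
  intro p X _ _ A U hS n r hr q v hv x hx hxv η hη
  by_contra hB
  set B := NU r U * EE r A η with hBd
  have hn : n ≠ 0 := by
    rintro rfl
    exact hB (Subsingleton.elim _ _)
  have hn' : (n : ℂ) ≠ 0 := by exact_mod_cast hn
  have hX : (Fintype.card X : ℂ) ≠ 0 := by exact_mod_cast Fintype.card_ne_zero
  -- `r u B = B`
  have hUB : ∀ u ∈ U, r u * B = B := fun u hu => by
    rw [hBd, ← Matrix.mul_assoc, mul_NU r U hu]
  -- `r (y ^ q) B = B`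
  have hAB : ∀ y ∈ A, r (y ^ q) * B = B := by
    intro y hy
    have h1 := mul_EE r A η (⟨y, hy⟩ ^ q)
    have h2 : η ((⟨y, hy⟩ : A) ^ q) = 1 := by
      rw [map_pow, ← Lin.pow_apply, hη, Lin.one_apply]
    rw [h2, Units.val_one, one_smul, Subgroup.coe_pow] at h1
    rw [hBd, ← Matrix.mul_assoc, NU_comm r A U hS.nrm (A.pow_mem hy q), Matrix.mul_assoc, h1]
  clear_value B
  -- `W N r(g) B = 0`
  have hW : ∀ g : X, r (x ^ q) * NU r U * r g * B = NU r U * r g * B := by
    intro g
    obtain ⟨u, hu, m, hm, w, hw, rfl⟩ := hS.dec g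
    have h1 : NU r U * r (u * m * w) * B = NU r U * r m * B := by
      rw [map_mul, map_mul, Matrix.mul_assoc, Matrix.mul_assoc, hUB w hw, ← Matrix.mul_assoc,
        ← Matrix.mul_assoc, NU_mul r U hu]
    have hy : m⁻¹ * x * m ∈ A := (hm _).2 (by
      rwa [show m * (m⁻¹ * x * m) * m⁻¹ = x by group])
    have h2 : x ^ q * m = m * (m⁻¹ * x * m) ^ q := by
      have h3 : (m⁻¹ * x * m) ^ q = m⁻¹ * x ^ q * m := by
        have h4 := conj_pow (i := q) (a := m⁻¹) (b := x)
        rwa [inv_inv] at h4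
      rw [h3]
      group
    have h5 : r (x ^ q) * (NU r U * r m * B) = NU r U * r m * B := by
      rw [← Matrix.mul_assoc, ← Matrix.mul_assoc, NU_comm r A U hS.nrm (A.pow_mem hx q),
        Matrix.mul_assoc (NU r U), ← map_mul, h2, map_mul, Matrix.mul_assoc, Matrix.mul_assoc,
        hAB _ hy, ← Matrix.mul_assoc]
    calc r (x ^ q) * NU r U * r (u * m * w) * B
        = r (x ^ q) * (NU r U * r (u * m * w) * B) := by simp only [Matrix.mul_assoc]
      _ = r (x ^ q) * (NU r U * r m * B) := by rw [h1]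
      _ = NU r U * r m * B := h5
      _ = NU r U * r (u * m * w) * B := h1.symm
  -- an entry of `B`
  have h3 : ∃ i j, B i j ≠ 0 := by
    by_contra hall
    push Not at hall
    exact hB (Matrix.ext hall)
  obtain ⟨i, j, hij⟩ := h3
  have h4 : (B * Matrix.single j i (1 : ℂ)).trace = B i j := by
    rw [Matrix.trace, Finset.sum_eq_single i]
    · rw [Matrix.diag_apply, Matrix.mul_single_apply_same, mul_one]
    · intro k _ hk
      rw [Matrix.diag_apply, Matrix.mul_single_apply_of_ne (hbj := hk)]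
    · intro h; exact absurd (mem_univ _) h
  have h5 := avg hr hn (B * Matrix.single j i (1 : ℂ))
  rw [h4] at h5
  set c : ℂ := (Fintype.card X : ℂ) * B i j / n with hc
  have hc0 : c ≠ 0 := div_ne_zero (mul_ne_zero hX hij) hn'
  have h6 : r (x ^ q) * NU r U * (c • (1 : Matrix (Fin n) (Fin n) ℂ)) =
      NU r U * (c • (1 : Matrix (Fin n) (Fin n) ℂ)) := by
    rw [← h5, Matrix.mul_sum, Matrix.mul_sum]
    refine sum_congr rfl fun g _ => ?_
    have h7 := congrArg (fun T => T * Matrix.single j i (1 : ℂ) * r g⁻¹) (hW g)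
    simp only [Matrix.mul_assoc] at h7 ⊢
    exact h7
  have h8 : r (x ^ q) * NU r U = NU r U := by
    rw [Matrix.mul_smul, Matrix.mul_smul, Matrix.mul_one, Matrix.mul_one] at h6
    exact smul_right_injective _ hc0 h6
  -- the vector
  have h9 : (NU r U).mulVec v = (Nat.card U : ℂ) • v := by
    unfold NU
    rw [Matrix.sum_mulVec]
    have h10 : ∀ u ∈ (univ : Finset U), (r (u : X)).mulVec v = v := fun u _ => hv u u.2
    rw [sum_congr rfl h10, sum_const, card_univ, Nat.card_eq_fintype_card, ← Nat.cast_smul_eq_nsmul ℂ]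
  have h11 := congrArg (fun T => Matrix.mulVec T v) h8
  simp only [← Matrix.mulVec_mulVec, h9, Matrix.mulVec_smul] at h11
  have hU : (Nat.card U : ℂ) ≠ 0 := by exact_mod_cast Nat.card_pos.ne'
  exact hxv (smul_right_injective _ hU h11)

end Pool.Agent.Lib.MP_1aae89_al.W7
end

section
/-!
# Module GLH: the groups between `SL_n(q)` and `GL_n(q)`, `p ∣ q - 1`, `p > n`
-/
set_option autoImplicit false

namespace Pool.Agent.Lib.MP_1aae89_al.W7

open Pool.Agent.Lib.MP_1aae89_al Pool.Agent.Lib.MP_1aae89_al.BF Pool.Agent.Lib.MP_1aae89_al.W3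
  Pool.Agent.Lib.MP_1aae89_al.HC Pool.Agent.Lib.MP_1aae89_al.HC.GLN_ Finset
open Matrix (GeneralLinearGroup)

namespace GLH_

theorem card_sub_comm {G : Type} [Group G] (H P : Subgroup G) :
    Nat.card (H.subgroupOf P) = Nat.card (P.subgroupOf H) :=
  Nat.card_congr
    ⟨fun x => ⟨⟨x.1.1, Subgroup.mem_subgroupOf.1 x.2⟩, Subgroup.mem_subgroupOf.2 x.1.2⟩,
     fun x => ⟨⟨x.1.1, Subgroup.mem_subgroupOf.1 x.2⟩, Subgroup.mem_subgroupOf.2 x.1.2⟩,
     fun _ => rfl, fun _ => rfl⟩

theorem card_sub_rel {G : Type} [Group G] (H K : Subgroup G) :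
    Nat.card (H.subgroupOf K) * H.relIndex K = Nat.card K :=
  Subgroup.card_mul_index (H.subgroupOf K)

theorem sylow_inf {G : Type} [Group G] [Finite G] {p : ℕ} (hp : p.Prime) (P H : Subgroup G)
    [H.Normal] (hP : Nat.card P = p ^ (Nat.card G).factorization p) :
    Nat.card (P.subgroupOf H) = p ^ (Nat.card H).factorization p := by
  have e1 := card_sub_rel H P
  have e2 := card_sub_rel H (P ⊔ H)
  rw [Subgroup.relIndex_sup_right] at e2
  have e3 : Nat.card (H.subgroupOf (P ⊔ H)) = Nat.card H :=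
    Nat.card_congr (Subgroup.subgroupOfEquivOfLe le_sup_right).toEquiv
  rw [e3] at e2
  rw [card_sub_comm] at e1
  have hr : H.relIndex P ≠ 0 := by
    intro h
    rw [h, mul_zero] at e1
    exact Nat.card_pos.ne e1
  have hc : Nat.card (P.subgroupOf H) ≠ 0 := Nat.card_pos.ne'
  have hH : Nat.card H ≠ 0 := Nat.card_pos.ne'
  have f1 : (Nat.card (P.subgroupOf H)).factorization p + (H.relIndex P).factorization p =
      (Nat.card G).factorization p := by
    have h := congrArg (fun k => k.factorization p) e1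
    simp only [Nat.factorization_mul hc hr, Finsupp.add_apply] at h
    rw [h, hP, hp.factorization_pow, Finsupp.single_eq_same]
  have f2 : (Nat.card H).factorization p + (H.relIndex P).factorization p =
      (Nat.card G).factorization p := by
    have h := congrArg (fun k => k.factorization p) e2
    simp only [Nat.factorization_mul hH hr, Finsupp.add_apply] at h
    rw [h]
    apply le_antisymm
    · exact (Nat.factorization_le_iff_dvd Nat.card_pos.ne' Nat.card_pos.ne').2
        (Subgroup.card_subgroup_dvd_card _) p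
    · have h1 : Nat.card P ∣ Nat.card (P ⊔ H : Subgroup G) :=
        Subgroup.card_dvd_of_le le_sup_left
      have h2 := (Nat.factorization_le_iff_dvd Nat.card_pos.ne' Nat.card_pos.ne').2 h1 p
      rwa [hP, hp.factorization_pow, Finsupp.single_eq_same] at h2
  have f3 : (Nat.card (P.subgroupOf H)).factorization p = (Nat.card H).factorization p := by omega
  have h4 : Nat.card (P.subgroupOf H) ∣ p ^ (Nat.card G).factorization p := by
    rw [← hP, ← card_sub_comm]
    exact Subgroup.card_subgroup_dvd_card _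
  obtain ⟨k, -, hk⟩ := (Nat.dvd_prime_pow hp).1 h4
  rw [hk, hp.factorization_pow, Finsupp.single_eq_same] at f3
  rw [hk, f3]

theorem det_UT {n : ℕ} {F : Type} [Field F] {g : GL (Fin n) F} (hg : UT g) :
    (g : Matrix (Fin n) (Fin n) F).det = 1 := by
  rw [Matrix.det_of_isUpperTriangular (fun i j hij => hg.2 i j hij)]
  exact Finset.prod_eq_one fun i _ => hg.1 i

end GLH_

open GLH_ in
theorem specGLH (hUTG : SpecUTG) (hBRU : SpecBRU) (hGSY : SpecGSY) : SpecGLH := by
  classical
  intro p n hp hn F _ _ hpq H hH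
  obtain ⟨U, hU, hUp⟩ := hUTG n F
  have hq1 : Fintype.card F - 1 ≠ 0 := by
    have := Fintype.one_lt_card (α := F)
    omega
  set a := (Fintype.card F - 1).factorization p with ha
  have hdvd : p ^ a ∣ Fintype.card F - 1 := Nat.ordProj_dvd _ _
  have hpF : (p : F) ≠ 0 := by
    intro h0
    obtain ⟨c, hc⟩ := hpq
    have h1 : (Fintype.card F : F) = 0 := FiniteField.cast_card_eq_zero F
    have h2 : Fintype.card F = p * c + 1 := by omega
    rw [h2] at h1
    push_cast at h1
    rw [h0, zero_mul, zero_add] at h1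
    exact one_ne_zero h1
  have hz : ∃ z ∈ Tm (p ^ a) F, orderOf z = p := by
    have : Fact p.Prime := ⟨hp⟩
    have h1 : p ∣ Nat.card Fˣ := by
      rw [Nat.card_units, Nat.card_eq_fintype_card]
      exact hpq
    obtain ⟨z, hz⟩ := exists_prime_orderOf_dvd_card' p h1
    refine ⟨z, ?_, hz⟩
    unfold Tm
    rw [MonoidHom.mem_ker, powMonoidHom_apply, ← orderOf_dvd_iff_pow_eq_one, hz]
    exact dvd_pow_self p (hp.factorization_pos_of_dvd hq1 hpq).ne'
  obtain ⟨z, hzT, hzo⟩ := hz
  have hPG : Nat.card (PP (p ^ a) n F) = p ^ (Nat.card (GL (Fin n) F)).factorization p := by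
    rw [card_PP hdvd, hGSY p n hp hn F hpq, ← pow_mul, mul_comm]
  have hN : H.Normal := by
    refine ⟨fun h hh g => ?_⟩
    have h1 : g * h * g⁻¹ * h⁻¹ ∈ H := by
      apply hH
      have h2 : Matrix.GeneralLinearGroup.det (g * h * g⁻¹ * h⁻¹) = 1 := by
        rw [map_mul, map_mul, map_mul, map_inv, map_inv]
        rw [mul_comm (Matrix.GeneralLinearGroup.det g), mul_inv_cancel_right, mul_inv_cancel]
      have h3 : ((Matrix.GeneralLinearGroup.det (g * h * g⁻¹ * h⁻¹) : Fˣ) : F) = 1 := by
        rw [h2, Units.val_one]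
      exact h3
    have h4 := H.mul_mem h1 hh
    rwa [inv_mul_cancel_right] at h4
  have hUH : ∀ u ∈ U, u ∈ H := fun u hu => hH u (det_UT ((hU u).1 hu))
  refine ⟨(PP (p ^ a) n F).subgroupOf H, U.subgroupOf H, sylow_inf hp _ H hPG, ?_, ?_, ?_, ?_⟩
  · intro x hx u hu
    rw [Subgroup.mem_subgroupOf] at hx hu ⊢
    obtain ⟨t, ht, hx'⟩ := (mem_PP _).1 hx
    rw [hU] at hu ⊢
    simp only [Subgroup.coe_mul, Subgroup.coe_inv]
    rw [← hx', ← map_inv]
    have h1 : ∀ i j, ((dg n F t * (u : GL (Fin n) F) * dg n F t⁻¹ : GL (Fin n) F) :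
        Matrix (Fin n) (Fin n) F) i j =
        t i * ((u : GL (Fin n) F) : Matrix (Fin n) (Fin n) F) i j * ((t j : F))⁻¹ := by
      intro i j
      rw [mul_dg, dg_mul, Pi.inv_apply, Units.val_inv_eq_inv_val]
    refine ⟨fun i => ?_, fun i j hij => ?_⟩
    · rw [h1, hu.1, mul_one, mul_inv_cancel₀ (Units.ne_zero _)]
    · rw [h1, hu.2 i j hij, mul_zero, zero_mul]
  · intro h
    apply hUp p hp hpF
    refine h.trans ?_
    rw [← card_sub_comm]
    exact Subgroup.card_subgroup_dvd_card _
  · intro u hu hx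
    have hu' := (hU (u : GL (Fin n) F)).1 (Subgroup.mem_subgroupOf.1 hu)
    have key : ∀ i j : Fin n, i < j →
        ((u : GL (Fin n) F) : Matrix (Fin n) (Fin n) F) i j = 0 := by
      intro i j hij
      have hp3 : 2 < p := by
        have h1 := i.2
        have h2 := j.2
        have h3 : (i : ℕ) < (j : ℕ) := hij
        omega
      set t : Fin n → Fˣ := fun k => if k = i then z else if k = j then z⁻¹ else 1 with ht
      have htP : dg n F t ∈ PP (p ^ a) n F := (mem_PP _).2 ⟨t, fun k => by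
        simp only [ht]
        split_ifs
        · exact hzT
        · exact inv_mem hzT
        · exact one_mem _, rfl⟩
      have htH : dg n F t ∈ H := by
        apply hH
        rw [dg_val, Matrix.det_diagonal]
        have h1 : ∏ k, (t k : F) = ((∏ k, t k : Fˣ) : F) := by
          rw [Units.coe_prod]
        rw [h1]
        have h2 : ∏ k, t k = 1 := by
          rw [← Finset.prod_subset (Finset.subset_univ ({i, j} : Finset (Fin n)))]
          · rw [Finset.prod_pair hij.ne]
            simp only [ht, if_true, if_neg hij.ne', mul_inv_cancel]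
          · intro k _ hk
            simp only [Finset.mem_insert, Finset.mem_singleton, not_or] at hk
            simp only [ht, if_neg hk.1, if_neg hk.2]
        rw [h2, Units.val_one]
      have h2 := hx ⟨dg n F t, htH⟩ (Subgroup.mem_subgroupOf.2 htP)
      have h3 := congrArg (fun g : H => ((g : GL (Fin n) F) : Matrix (Fin n) (Fin n) F) i j) h2
      simp only [Subgroup.coe_mul] at h3
      rw [dg_mul, mul_dg] at h3
      simp only [ht, if_true, if_neg hij.ne'] at h3
      have h4 : ((z : F) ^ 2 - 1) * ((u : GL (Fin n) F) : Matrix (Fin n) (Fin n) F) i j = 0 := by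
        have h5 : (z : F) * ((z⁻¹ : Fˣ) : F) = 1 := Units.mul_inv z
        calc ((z : F) ^ 2 - 1) * ((u : GL (Fin n) F) : Matrix (Fin n) (Fin n) F) i j
            = z * ((z : F) * ((u : GL (Fin n) F) : Matrix (Fin n) (Fin n) F) i j) -
              ((u : GL (Fin n) F) : Matrix (Fin n) (Fin n) F) i j := by ring
          _ = z * (((u : GL (Fin n) F) : Matrix (Fin n) (Fin n) F) i j * ((z⁻¹ : Fˣ) : F)) -
              ((u : GL (Fin n) F) : Matrix (Fin n) (Fin n) F) i j := by rw [h3]
          _ = ((z : F) * ((z⁻¹ : Fˣ) : F)) *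
                ((u : GL (Fin n) F) : Matrix (Fin n) (Fin n) F) i j -
              ((u : GL (Fin n) F) : Matrix (Fin n) (Fin n) F) i j := by ring
          _ = 0 := by rw [h5, one_mul, sub_self]
      rcases mul_eq_zero.1 h4 with h5 | h5
      · exfalso
        have h6 : z ^ 2 = 1 := Units.ext (by rw [Units.val_pow_eq_pow_val, Units.val_one]; exact sub_eq_zero.1 h5)
        have h7 := orderOf_dvd_of_pow_eq_one h6
        rw [hzo] at h7
        have := Nat.le_of_dvd two_pos h7
        omega
      · exact h5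
    apply Subtype.ext
    ext i j
    rw [Subgroup.coe_one, Units.val_one]
    rcases lt_trichotomy i j with h1 | h1 | h1
    · rw [key i j h1, Matrix.one_apply_ne h1.ne]
    · rw [h1, hu'.1, Matrix.one_apply_eq]
    · rw [hu'.2 i j h1, Matrix.one_apply_ne h1.ne']
  · intro g
    obtain ⟨u, v, hu, hv, hm⟩ := hBRU n F (g : GL (Fin n) F)
    have huH : u ∈ H := hH u (det_UT hu)
    have hvH : v ∈ H := hH v (det_UT hv)
    refine ⟨⟨u, huH⟩⁻¹, inv_mem (Subgroup.mem_subgroupOf.2 ((hU u).2 hu)),
      ⟨u, huH⟩ * g * ⟨v, hvH⟩, fun x => ?_, ⟨v, hvH⟩⁻¹,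
      inv_mem (Subgroup.mem_subgroupOf.2 ((hU v).2 hv)), ?_⟩
    · rw [Subgroup.mem_subgroupOf, Subgroup.mem_subgroupOf]
      exact mon_norm hm x
    · group

end Pool.Agent.Lib.MP_1aae89_al.W7
end

section
/-!
# Module QUO: central quotients
-/
set_option autoImplicit false

namespace Pool.Agent.Lib.MP_1aae89_al.W7

open Pool.Agent.Lib.MP_1aae89_al Pool.Agent.Lib.MP_1aae89_al.BF Pool.Agent.Lib.MP_1aae89_al.W3
  Pool.Agent.Lib.MP_1aae89_al.HC Pool.Agent.Lib.MP_1aae89_al.W6 Finset
open Pool.Agent.Lib.MP1aae89 (Pex)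

namespace QUO_

/-- if `x u x⁻¹ = c u` with `c` central then `x^k u x^(-k) = c^k u` -/
theorem pow_conj {H : Type} [Group H] {x u c : H} (hc : ∀ h, c * h = h * c) (h : x * u = c * u * x) (k : ℕ) :
    x ^ k * u = c ^ k * u * x ^ k := by
  induction k with
  | zero => simp
  | succ k ih =>
    have h1 : c ^ k * x = x * c ^ k := ((show Commute c x from hc x).pow_left k)
    calc x ^ (k + 1) * u = x * (x ^ k * u) := by rw [pow_succ' x k, mul_assoc]
      _ = x * c ^ k * u * x ^ k := by rw [ih]; group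
      _ = c ^ k * (x * u) * x ^ k := by rw [← h1]; group
      _ = c ^ (k + 1) * u * x ^ (k + 1) := by rw [h, pow_succ c k, pow_succ' x k]; group

end QUO_

theorem specQUO : SpecQUO := by
  intro p hp H M _ _ _ _ f hf hcen P U hP hd
  have : Fact p.Prime := ⟨hp⟩
  refine ⟨?_, ?_, ?_, ?_, ?_⟩
  · have h1 : ¬ p ∣ P.index := (Sylow.ofCard P hP).not_dvd_index
    have h2 : ¬ p ∣ (P.map f).index := fun h => h1 (h.trans (P.index_map_dvd hf))
    have h3 : IsPGroup p (P.map f) := (IsPGroup.of_card hP).map f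
    exact (h3.toSylow h2).card_eq_multiplicity
  · rintro _ ⟨x, hx, rfl⟩ _ ⟨u, hu, rfl⟩
    exact ⟨x * u * x⁻¹, hd.nrm x hx u hu, by rw [map_mul, map_mul, map_inv]⟩
  · intro h
    exact hd.cop (h.trans (Subgroup.card_map_dvd U f))
  · rintro _ ⟨u, hu, rfl⟩ hx
    have h1 : u = 1 := by
      refine hd.fix u hu fun x hxP => ?_
      have h2 : f x * f u = f u * f x := hx (f x) ⟨x, hxP, rfl⟩
      have h3 : f (x * u * x⁻¹ * u⁻¹) = 1 := by
        rw [map_mul, map_mul, map_mul, map_inv, map_inv, h2]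
        group
      obtain ⟨c, hc⟩ : ∃ c, c = x * u * x⁻¹ * u⁻¹ := ⟨_, rfl⟩
      rw [← hc] at h3
      have hcc := hcen c h3
      have hcU : c ∈ U := by
        rw [hc]
        exact U.mul_mem (hd.nrm x hxP u hu) (U.inv_mem hu)
      have h4 : x * u = c * u * x := by rw [hc]; group
      have h5 := QUO_.pow_conj hcc h4 (Nat.card P)
      have h6 : x ^ Nat.card P = 1 := by
        have h7 : (⟨x, hxP⟩ : P) ^ Nat.card P = 1 := pow_card_eq_one'
        exact congrArg Subtype.val h7
      rw [h6, one_mul, mul_one] at h5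
      have h7 : c ^ Nat.card P = 1 := by
        have h8 : 1 * u = c ^ Nat.card P * u := by rw [one_mul]; exact h5
        exact (mul_right_cancel h8).symm
      have h8 : c ^ Nat.card U = 1 := by
        have h9 : (⟨c, hcU⟩ : U) ^ Nat.card U = 1 := pow_card_eq_one'
        exact congrArg Subtype.val h9
      have h9 : Nat.Coprime (Nat.card P) (Nat.card U) := by
        rw [hP]
        exact Nat.Coprime.pow_left _ ((Nat.Prime.coprime_iff_not_dvd hp).2 hd.cop)
      have h10 : orderOf c ∣ 1 := by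
        rw [← h9]
        exact Nat.dvd_gcd (orderOf_dvd_of_pow_eq_one h7) (orderOf_dvd_of_pow_eq_one h8)
      have h11 : c = 1 := orderOf_eq_one_iff.1 (Nat.dvd_one.1 h10)
      rw [h4, h11, one_mul]
    rw [h1, map_one]
  · intro g
    obtain ⟨g0, rfl⟩ := hf g
    obtain ⟨u, hu, n, hn, v, hv, rfl⟩ := hd.dec g0
    refine ⟨f u, ⟨u, hu, rfl⟩, f n, fun x => ⟨?_, ?_⟩, f v, ⟨v, hv, rfl⟩, by rw [map_mul, map_mul]⟩
    · rintro ⟨y, hy, rfl⟩
      exact ⟨n * y * n⁻¹, (hn y).1 hy, by rw [map_mul, map_mul, map_inv]⟩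
    · rintro ⟨y, hy, hxy⟩
      refine ⟨n⁻¹ * y * n, (hn _).2 ?_, ?_⟩
      · have h1 : n * (n⁻¹ * y * n) * n⁻¹ = y := by group
        rw [h1]
        exact hy
      · rw [map_mul, map_mul, map_inv, hxy]
        group

end Pool.Agent.Lib.MP_1aae89_al.W7
end

section
/-!
# Module UPC: up along a chain of subgroups
-/
set_option autoImplicit false

namespace Pool.Agent.Lib.MP_1aae89_al.W7

open Pool.Agent.Lib.MP_1aae89_al Pool.Agent.Lib.MP_1aae89_al.BF Pool.Agent.Lib.MP_1aae89_al.W3
  Pool.Agent.Lib.MP_1aae89_al.HC Pool.Agent.Lib.MP_1aae89_al.W6 Finset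
open Pool.Agent.Lib.MP1aae89 (Pex)

namespace UPC_

/-- one step of the chain -/
theorem step (hXDL : SpecXDL) (hQDL : SpecQDL) {p : ℕ} (hp : p.Prime) {X : Type} [Group X] [Finite X]
    (R Q : Subgroup X) (e q : ℕ) (hQ : Nat.card Q = p ^ e) (hpq : p ∣ q) (hRQ : R ≤ Q)
    (hi : R.relIndex Q = p) (z : X) (hzQ : z ∈ Q) (hzR : z ∉ R) (hzq : z ^ q = 1) (χ : X → ℂ)
    (hχ : IsCharacter χ) (h : p ∣ dl q (fun x : R => χ x) 1) : p ∣ dl q (fun x : Q => χ x) 1 := by
  have : Fact p.Prime := ⟨hp⟩
  have : Fintype Q := Fintype.ofFinite Q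
  have hSi : (R.subgroupOf Q).index = p := hi
  have he : e ≠ 0 := by
    rintro rfl
    rw [pow_zero] at hQ
    have h1 : (R.subgroupOf Q).index ∣ Nat.card Q := Subgroup.index_dvd_card _
    rw [hSi, hQ] at h1
    exact hp.one_lt.ne' (Nat.dvd_one.1 h1)
  have hSn : (R.subgroupOf Q).Normal := by
    refine Subgroup.normal_of_index_eq_minFac_card ?_
    rw [hSi, hQ, Nat.pow_minFac he, hp.minFac_eq]
  have hcR : IsCharacter (fun x : R => χ x) := hχ.comp R.subtype
  have hcQ : IsCharacter (fun x : Q => χ x) := hχ.comp Q.subtype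
  have h1 := hQDL (Subgroup.subgroupOfEquivOfLe hRQ).toMonoidHom (Subgroup.subgroupOfEquivOfLe hRQ).surjective q
    (fun x : R => χ x) hcR 1
  have h2 : pb (Subgroup.subgroupOfEquivOfLe hRQ).toMonoidHom (1 : Lin R) = resL (R.subgroupOf Q) (1 : Lin Q) := by
    apply Lin.ext
    intro x
    rw [pb_apply, resL_apply, Lin.one_apply, Lin.one_apply]
  refine hXDL p hp e hQ (R.subgroupOf Q) hSi q hpq ⟨z, hzQ⟩ (fun h' => hzR (Subgroup.mem_subgroupOf.1 h')) ?_
    (fun x : Q => χ x) hcQ 1 ?_
  · intro l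
    have h3 : (⟨z, hzQ⟩ : Q) ^ q = 1 := Subtype.ext hzq
    rw [← map_pow, h3, map_one]
  · rw [← h2]
    have h4 : (fun x : R.subgroupOf Q => χ (((Subgroup.subgroupOfEquivOfLe hRQ).toMonoidHom x : R) : X)) =
        fun x : R.subgroupOf Q => χ ((x : Q) : X) := rfl
    rw [h4] at h1
    rw [h1]
    exact h

end UPC_

theorem specUPC (hXDL : SpecXDL) (hQDL : SpecQDL) : SpecUPC := by
  intro p hp X _ _ A P e hP q hpq hch χ hχ h
  obtain ⟨m, R, hR0, hRm, hR⟩ := hch
  have hmono : ∀ k i, i + k ≤ m → R i ≤ R (i + k) := by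
    intro k
    induction k with
    | zero => intro i _; exact le_refl _
    | succ k ih =>
      intro i hi
      exact (ih i (by omega)).trans ((hR (i + k) (by omega)).1)
  have key : ∀ i, i ≤ m → p ∣ dl q (fun x : R i => χ x) 1 := by
    intro i
    induction i with
    | zero =>
      intro _
      rw [hR0]
      exact h
    | succ i ih =>
      intro hi
      obtain ⟨h1, h2, z, h3, h4, h5⟩ := hR i (by omega)
      have h6 : R (i + 1) ≤ P := by
        have h7 := hmono (m - (i + 1)) (i + 1) (by omega)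
        rw [show i + 1 + (m - (i + 1)) = m by omega, hRm] at h7
        exact h7
      have h7 : Nat.card (R (i + 1)) ∣ p ^ e := by
        rw [← hP]
        exact Subgroup.card_dvd_of_le h6
      obtain ⟨e', _, he'⟩ := (Nat.dvd_prime_pow hp).1 h7
      exact UPC_.step hXDL hQDL hp (R i) (R (i + 1)) e' q he' hpq h1 h2 z h3 h4 h5 χ hχ (ih (by omega))
  have h1 := key m le_rfl
  rw [hRm] at h1
  exact h1

end Pool.Agent.Lib.MP_1aae89_al.W7
end
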