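import Pool.Agent.Lib.MP_1aae89_al.HC.Top
import Pool.Agent.Lib.MP_1aae89_al.W5.All
import Pool.Agent.Lib.MP_1aae89_al.W6.STP
import Pool.Agent.Lib.MP_1aae89_al.W7.UPC
import Pool.Agent.Lib.MP_1aae89_al.W6.INI
import Pool.Agent.Lib.MP_1aae89_al.W6.Q1D
import Pool.Agent.Lib.MP_1aae89_al.W7.Spec
import Pool.Agent.Lib.MP_1aae89_al.W5.SPN
import Pool.Agent.Lib.MP_1aae89_al.HC.RAD

section
/-!
# From `IC` to the statement of Q1 for Mathlib's representations
-/
set_option autoImplicit false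

namespace Pool.Agent.Lib.MP_1aae89_al.W4

open Pool.Agent.Lib.MP_1aae89_al Pool.Agent.Lib.MP_1aae89_al.BF Pool.Agent.Lib.MP_1aae89_al.W3 Finset
open Pool.Agent.Lib.MP1aae89 (Pex)

/-- the trivial group -/
theorem fxd_bot (p b : ℕ) {M : Type} [Group M] [Finite M] : Fxd p b (⊥ : Subgroup M) := by
  intro L s0 _ _ _ n r _ _ t y
  have h : y ^ (1 + s0 * p ^ (b - 1) * t) = y := Subsingleton.elim _ _
  rw [h]

/-- groups whose irreducible characters of degree prime to `p` have level less than `b` -/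
theorem fxd_of_lev {p b : ℕ} (hp : p.Prime) (hb : 2 ≤ b) {H : Type} [Group H] [Finite H]
    (h : ∀ (U : Type) [AddCommGroup U] [Module ℂ U] [FiniteDimensional ℂ U]
      (θ : Representation ℂ H U), θ.IsIrreducible → ¬ p ∣ Module.finrank ℂ U →
      lev p θ.character < b) : Fxd p b H := by
  intro L s0 hL hH hs n r hr hn
  have : Fintype H := Fintype.ofFinite H
  have hn0 : n ≠ 0 := by rintro rfl; exact hn (dvd_zero _)
  have h1 := h (Fin n → ℂ) (toRep r) (toRep_irr hn0 hr) (by rw [Module.finrank_fin_fun]; exact hn)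
  have h2 : (toRep r).character = fun l => (r l).trace := funext fun l => toRep_char r l
  rw [h2] at h1
  exact (topLVF p hp L s0 hL hs hH _ (isCharacter_trace r)).1 (b - 1) (by omega) (by omega)

/-- Q1 from `IC` -/
theorem out {p : ℕ} (hp : p.Prime) {G : Type} [Group G] [Fintype G] (M : Subgroup G)
    (hM : ¬ p ∣ M.index) {V : Type} [AddCommGroup V] [Module ℂ V] [FiniteDimensional ℂ V]
    (ρ : Representation ℂ M V) (hρ : ρ.IsIrreducible) (hdeg : ¬ p ∣ Module.finrank ℂ V)
    (b : ℕ) (hb : lev p ρ.character = b) (hb2 : 2 ≤ b) (hIC : IC p b M) (Q : Sylow p G) :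
    lev p (fun x : Q => ind M ρ.character (x : G)) = b ∧ lev p (ind M ρ.character) = b := by
  obtain ⟨r, hr, hχ⟩ := of_irr ρ hρ
  have hχ' : ρ.character = fun g => (r g).trace := funext hχ
  rw [hχ'] at hb ⊢
  have hQ : Nat.card (Q : Subgroup G) = p ^ (Nat.card G).factorization p := by
    have : Fact p.Prime := ⟨hp⟩
    exact Q.card_eq_multiplicity
  exact topQ1C p hp M hM _ r hr hdeg b hb2 hb hIC (Q : Subgroup G) hQ

end Pool.Agent.Lib.MP_1aae89_al.W4
end

section
/-!
# Assembly of the modules of `W6`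
-/
set_option autoImplicit false

namespace Pool.Agent.Lib.MP_1aae89_al.W6

open Pool.Agent.Lib.MP_1aae89_al Pool.Agent.Lib.MP_1aae89_al.BF Pool.Agent.Lib.MP_1aae89_al.W3
  Pool.Agent.Lib.MP_1aae89_al.W4 Pool.Agent.Lib.MP_1aae89_al.W5 Finset

theorem topRED : SpecRED := specRED W3.topGPG W5.topGEX W5.topMAB W5.topSPL W5.topPRD W5.topWZS

theorem topINI : SpecINI := specINI W3.topSCK W3.topINE W3.topPWL W3.topPRM W3.topSU0

theorem topIND : SpecIND := specIND W3.topSCK W3.topCMU W3.topLVF W3.topPRM W3.topIDC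

theorem topQ1D : SpecQ1D := specQ1D W3.topIDC W3.topLVF W3.topSCK W3.topSU0 W3.topPRM

theorem topXDL : SpecXDL := specXDL

theorem topSTP : SpecSTP := specSTP W3.topTWS W3.topPWL W3.topPRM W3.topSUG W5.topIR1 W3.topDT2
  W3.topGLA W3.topQDL topXDL

end Pool.Agent.Lib.MP_1aae89_al.W6
end

section
/-!
# From the counting statement to Q1 for Mathlib's representations
-/
set_option autoImplicit false

namespace Pool.Agent.Lib.MP_1aae89_al.W7

open Pool.Agent.Lib.MP_1aae89_al Pool.Agent.Lib.MP_1aae89_al.BF Pool.Agent.Lib.MP_1aae89_al.W3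
  Pool.Agent.Lib.MP_1aae89_al.HC Pool.Agent.Lib.MP_1aae89_al.W6 Finset
open Pool.Agent.Lib.MP1aae89 (Pex)

/-- an irreducible representation as a matrix representation with scalar commutant -/
theorem of_irr' {M : Type} [Group M] {V : Type} [AddCommGroup V] [Module ℂ V]
    [FiniteDimensional ℂ V] (ρ : Representation ℂ M V) (h : ρ.IsIrreducible) :
    ∃ (r : M →* Matrix (Fin (Module.finrank ℂ V)) (Fin (Module.finrank ℂ V)) ℂ)
      (φ : V ≃ₗ[ℂ] (Fin (Module.finrank ℂ V) → ℂ)), Sch r ∧ (∀ g, ρ.character g = (r g).trace) ∧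
        ∀ g v, φ (ρ g v) = (r g).mulVec (φ v) := by
  classical
  let b := Module.finBasis ℂ V
  let f := LinearMap.toMatrixAlgEquiv b
  refine ⟨(f : (V →ₗ[ℂ] V) →* _).comp ρ, b.equivFun, ?_, ?_, ?_⟩
  · intro T hT
    have h1 : ∀ g, f.symm T ∘ₗ ρ g = ρ g ∘ₗ f.symm T := by
      intro g
      apply f.injective
      change f (f.symm T * ρ g) = f (ρ g * f.symm T)
      rw [map_mul, map_mul, AlgEquiv.apply_symm_apply]
      exact hT g
    let F : Representation.IntertwiningMap ρ ρ := ⟨f.symm T, h1⟩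
    obtain ⟨c, hc⟩ :=
      (Representation.IsIrreducible.algebraMap_intertwiningMap_bijective_of_isAlgClosed
        (ρ := ρ) (k := ℂ)).2 F
    refine ⟨c, ?_⟩
    have h2 : f.symm T = c • (1 : V →ₗ[ℂ] V) := by
      have h3 := congrArg Representation.IntertwiningMap.toLinearMap hc
      exact h3.symm
    have h4 := congrArg f h2
    rw [AlgEquiv.apply_symm_apply, map_smul, map_one] at h4
    exact h4
  · intro g
    change LinearMap.trace ℂ V (ρ g) = (LinearMap.toMatrixAlgEquiv b (ρ g)).trace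
    rw [LinearMap.trace_eq_matrix_trace ℂ b]
    rfl
  · intro g v
    exact (LinearMap.toMatrix_mulVec_repr b b (ρ g) v).symm

theorem out7 (hADL : SpecADL) (hUPC : SpecUPC) (hCJS : SpecCJS) {p : ℕ} (hp : p.Prime) {G : Type}
    [Group G] [Fintype G] (M : Subgroup G) (hM : ¬ p ∣ M.index) {V : Type} [AddCommGroup V]
    [Module ℂ V] [FiniteDimensional ℂ V] (ρ : Representation ℂ M V) (hρ : ρ.IsIrreducible)
    (hdeg : ¬ p ∣ Module.finrank ℂ V) (b : ℕ) (hb : lev p ρ.character = b) (hb2 : 2 ≤ b)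
    (P : Sylow p M) (A U : Subgroup M) (hS : SplitDec p A U)
    (hch : PChain p (p ^ (b - 1)) A P) (v : V) (hv : ∀ u ∈ U, ρ u v = v) (x : M) (hx : x ∈ A)
    (hxv : ρ (x ^ p ^ (b - 1)) v ≠ v) (Q : Sylow p G) :
    lev p (fun x : Q => ind M ρ.character (x : G)) = b ∧ lev p (ind M ρ.character) = b := by
  classical
  have hpf : Fact p.Prime := ⟨hp⟩
  have : Fintype M := Fintype.ofFinite M
  obtain ⟨r, φ, hr, hχ, hφ⟩ := of_irr' ρ hρ
  have hχ' : ρ.character = fun g => (r g).trace := funext hχ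
  rw [hχ'] at hb ⊢
  set ψ : M → ℂ := fun g => (r g).trace with hψ
  have hψc : IsCharacter ψ := isCharacter_trace r
  have hQ : Nat.card (Q : Subgroup G) = p ^ (Nat.card G).factorization p := Q.card_eq_multiplicity
  have hP : Nat.card (P : Subgroup M) = p ^ (Nat.card M).factorization p := P.card_eq_multiplicity
  have hpq : p ∣ p ^ (b - 1) := dvd_pow_self p (by omega)
  obtain ⟨m, R, hR0, hRm, hR⟩ := hch
  have hAP : A ≤ (P : Subgroup M) := by
    have h1 : ∀ i, i ≤ m → R 0 ≤ R i := by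
      intro i
      induction i with
      | zero => exact fun _ => le_rfl
      | succ i ih => exact fun hi => (ih (by omega)).trans (hR i (by omega)).1
    rw [← hR0, ← hRm]
    exact h1 m le_rfl
  obtain ⟨e, he⟩ : ∃ e, Nat.card A = p ^ e := by
    have h1 : Nat.card A ∣ p ^ (Nat.card M).factorization p := hP ▸ Subgroup.card_dvd_of_le hAP
    obtain ⟨e, -, he⟩ := (Nat.dvd_prime_pow hp).1 h1
    exact ⟨e, he⟩
  have h1 := hADL p hp A U e he hS r hr (p ^ (b - 1)) hpq (φ v)
    (fun u hu => by rw [← hφ, hv u hu]) x hx (fun h => hxv (φ.injective (by rw [hφ, h])))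
  have h2 := hUPC p hp A P _ hP (p ^ (b - 1)) hpq ⟨m, R, hR0, hRm, hR⟩ ψ hψc h1
  have hone : ∀ P₁ : Subgroup M, resL P₁ (1 : Lin M) = 1 := fun P₁ => Lin.ext fun y => by
    rw [resL_apply, Lin.one_apply, Lin.one_apply]
  have h3 := topQ1D p hp M hM ψ hψc (Module.finrank ℂ V) (by
    change (r 1).trace = _
    rw [map_one, Matrix.trace_one, Fintype.card_fin]) hdeg b hb2 (fun P₁ hP₁ => by
      rw [hone, hCJS p hp P P₁ hP hP₁ (p ^ (b - 1)) ψ hψc]
      exact h2) (Q : Subgroup G) hQ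
  obtain ⟨h4, h5⟩ := W.specLRS p hp M Q ψ hψc
  rw [hb] at h5
  exact ⟨le_antisymm (h4.trans h5) h3, le_antisymm h5 (h3.trans h4)⟩

end Pool.Agent.Lib.MP_1aae89_al.W7
end

section
/-!
# Assembly of the modules of `HC` and `W7`
-/
set_option autoImplicit false

namespace Pool.Agent.Lib.MP_1aae89_al.W7

open Pool.Agent.Lib.MP_1aae89_al Pool.Agent.Lib.MP_1aae89_al.BF Pool.Agent.Lib.MP_1aae89_al.W3
  Pool.Agent.Lib.MP_1aae89_al.HC Pool.Agent.Lib.MP_1aae89_al.W6 Finset
open Matrix (GeneralLinearGroup)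

theorem topPFX : SpecPFX := specPFX specTRI specORB

theorem topHCI : SpecHCI :=
  specHCI specRAD (specGCO specRAD) topPFX (specAGI specTRI) specSCR W3.topPRM

theorem topHCS : SpecHCS := specHCS topHCI

theorem topADL : SpecADL := specADL topPFX specCNJ

theorem topUPC : SpecUPC := specUPC specXDL W3.topQDL

theorem topCJS : SpecCJS := specCJS W3.topQDL

theorem topGLH : SpecGLH := specGLH specUTG specBRU specGSY

end Pool.Agent.Lib.MP_1aae89_al.W7
end
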